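import Pool.Agent.Helper10.PC.Count
import Pool.Agent.Helper3.EVC.E07
import Pool.Agent.Helper3.EVC.E13a

/-!
# POLY: existence of the saddle point
-/

set_option autoImplicit false

namespace Pool.Agent.Helper7.PC

open Polynomial EVC Pool.Agent.Helper10.PC

variable {b κ ε E : ℝ} {L : ℕ} {P : ℝ[X]}

theorem mean_cont' {L : ℕ} {P : ℝ[X]} (h : Nice L P) {u v : ℝ} (hu : 0 < u) : ContinuousOn (mean P) (Set.Icc u v) := by
  unfold mean
  refine ContinuousOn.div ?_ ?_ ?_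
  · exact (continuous_id.mul (Polynomial.continuous _)).continuousOn
  · exact (Polynomial.continuous _).continuousOn
  · intro x hx
    exact (h.eval_pos (lt_of_lt_of_le hu hx.1)).ne'

theorem card_Z' (P : ℝ[X]) : Multiset.card (Z P) = P.natDegree := by
  unfold Z
  rw [splits_iff_card_roots.1 (IsAlgClosed.splits _), natDegree_map_eq_of_injective (algebraMap ℝ ℂ).injective]

/-- the mean at `600` -/
theorem mean_600 (h : HP b κ ε E L P) : (P.natDegree : ℝ) - L / 148 ≤ mean P 600 := by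
  have h1 := congrArg Complex.re (mean_eq h.toNice (by norm_num : (0 : ℝ) < 600))
  rw [Complex.ofReal_re, re_sum_map] at h1
  have h2 : ∀ ρ ∈ Z P, 1 - 1 / 74 ≤ (p 600 ρ).re := by
    intro ρ hρ
    have hf := h.far ρ hρ
    have hd : 592 ≤ ‖((600 : ℝ) : ℂ) - ρ‖ := by
      have h3 := norm_sub_norm_le ((600 : ℝ) : ℂ) ρ
      rw [Complex.norm_real, Real.norm_of_nonneg (by norm_num)] at h3
      linarith
    have hpos : 0 < ‖((600 : ℝ) : ℂ) - ρ‖ := by linarith
    have hne : ((600 : ℝ) : ℂ) - ρ ≠ 0 := norm_pos_iff.1 hpos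
    have e1 : p 600 ρ = 1 - (-ρ / (((600 : ℝ) : ℂ) - ρ)) := by
      unfold p
      rw [eq_sub_iff_add_eq, ← add_div, ← sub_eq_add_neg, div_self hne]
    have h3 : ‖-ρ / (((600 : ℝ) : ℂ) - ρ)‖ ≤ 1 / 74 := by
      rw [norm_div, norm_neg, div_le_iff₀ hpos]
      linarith
    rw [e1, Complex.sub_re, Complex.one_re]
    have h5 := (le_abs_self _).trans ((Complex.abs_re_le_norm _).trans h3)
    linarith
  have h3 := Multiset.sum_map_le_sum_map _ _ h2
  rw [Multiset.map_const', Multiset.sum_replicate, nsmul_eq_mul, h1, card_Z'] at h3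
  have h4 : 2 * (P.natDegree : ℝ) ≤ L := by exact_mod_cast h.deg
  linarith

/-- **Existence of the saddle point.** -/
theorem exists_r (hA : AdmP b κ ε E) (h : HP b κ ε E L P) {k : ℕ} {T : ℝ} (hT : 0 < T) (hTL : T ≤ L)
    (hk : 1 / b * (8 * T + 3 * E) ≤ k) (hk2 : (k : ℝ) + L / 148 < P.natDegree) :
    ∃ r : ℝ, 0 < r ∧ r ≤ 600 ∧ T ≤ L * √r ∧ mean P r = k := by
  have hL : (0 : ℝ) < L := lt_of_lt_of_le hT hTL
  obtain ⟨r₀, hr₀⟩ : ∃ r₀ : ℝ, r₀ = (T / L) ^ 2 := ⟨_, rfl⟩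
  have h0 : 0 < T / L := by positivity
  have hr0 : 0 < r₀ := by rw [hr₀]; positivity
  have hs : √r₀ = T / L := by rw [hr₀]; exact Real.sqrt_sq h0.le
  have hLs : (L : ℝ) * √r₀ = T := by rw [hs]; field_simp
  have h1 : T / L ≤ 1 := by rw [div_le_one hL]; exact hTL
  have h2 : r₀ ≤ 600 := by
    rw [hr₀]
    have : (T / L) ^ 2 ≤ 1 := pow_le_one₀ h0.le h1
    linarith
  have h3 := mean_le h hA.hb (by linarith [hA.hE]) hr0
  rw [hLs] at h3
  have h4 := mean_600 h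
  obtain ⟨r, hr, hrk⟩ := intermediate_value_Icc h2 (mean_cont' h.toNice hr0)
    ⟨h3.trans hk, by linarith⟩
  refine ⟨r, lt_of_lt_of_le hr0 hr.1, hr.2, ?_, hrk⟩
  rw [← hLs]
  exact mul_le_mul_of_nonneg_left (Real.sqrt_le_sqrt hr.1) hL.le

end Pool.Agent.Helper7.PC
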